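import Mathlib

set_option autoImplicit false
open Finset

namespace Pool.Agent.Results.MP_e31007_co.RandicAlpha

/-- The Randić index `∑_{uv ∈ E(G)} 1 / √(d_u d_v)`. -/
noncomputable def randic {V : Type} [Fintype V] (G : SimpleGraph V) : ℝ := by
  classical
  exact ∑ e ∈ G.edgeFinset, Sym2.lift ⟨fun u v =>
    1 / Real.sqrt ((G.degree u : ℝ) * (G.degree v : ℝ)), fun u v => by simp only [mul_comm]⟩ e

/-- The value `a + √(a (n - a))`. -/
noncomputable def val (n a : ℕ) : ℝ := (a : ℝ) + Real.sqrt ((a : ℝ) * ((n : ℝ) - a))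

theorem sum_edges {V : Type} [Fintype V] [DecidableEq V] (G : SimpleGraph V)
    [DecidableRel G.Adj] (g : V → ℝ) :
    ∑ e ∈ G.edgeFinset, Sym2.lift ⟨fun u v => g u + g v, fun _ _ => add_comm _ _⟩ e =
      ∑ v, (G.degree v : ℝ) * g v := by
  have h1 : ∀ e ∈ G.edgeFinset, Sym2.lift ⟨fun u v => g u + g v, fun _ _ => add_comm _ _⟩ e =
      ∑ w, if w ∈ e then g w else 0 := by
    intro e he
    induction e with
    | _ u v =>
      have huv : u ≠ v := by
        rw [SimpleGraph.mem_edgeFinset, SimpleGraph.mem_edgeSet] at he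
        exact he.ne
      have h2 : ∀ w, (if w ∈ s(u, v) then g w else 0) =
          (if w = u then g w else 0) + (if w = v then g w else 0) := by
        intro w
        by_cases h3 : w = u
        · subst h3
          simp [huv]
        · by_cases h4 : w = v
          · subst h4
            simp [h3]
          · simp [h3, h4]
      simp only [h2]
      rw [Finset.sum_add_distrib]
      simp
  rw [Finset.sum_congr rfl h1, Finset.sum_comm]
  refine Finset.sum_congr rfl fun v _ => ?_
  rw [← Finset.sum_filter, Finset.sum_const, nsmul_eq_mul, ← G.card_incidenceFinset_eq_degree v,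
    G.incidenceFinset_eq_filter v]

theorem randic_le {V : Type} [Fintype V] (G : SimpleGraph V) (f : V → ℝ)
    (hf : ∀ v, 0 ≤ f v) (hd : ∀ v, 0 < (G.neighborSet v).ncard)
    (h : ∀ u v, G.Adj u v → 1 ≤ f u * f v) : randic G ≤ (∑ v, f v) / 2 := by
  classical
  have hd' : ∀ v, (0 : ℝ) < G.degree v := by
    intro v
    have := hd v
    rw [Set.ncard_eq_toFinset_card', ← SimpleGraph.neighborFinset_def,
      SimpleGraph.card_neighborFinset_eq_degree] at this
    exact_mod_cast this
  have key : ∀ e ∈ G.edgeFinset, Sym2.lift ⟨fun u v =>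
      1 / Real.sqrt ((G.degree u : ℝ) * (G.degree v : ℝ)), fun u v => by simp only [mul_comm]⟩ e ≤
      Sym2.lift ⟨fun u v => f u / (2 * G.degree u) + f v / (2 * G.degree v),
        fun _ _ => add_comm _ _⟩ e := by
    intro e he
    induction e with
    | _ u v =>
      rw [SimpleGraph.mem_edgeFinset, SimpleGraph.mem_edgeSet] at he
      have hu := hd' u
      have hv := hd' v
      have hfuv := h u v he
      simp only [Sym2.lift_mk]
      have hs : 0 < Real.sqrt ((G.degree u : ℝ) * (G.degree v : ℝ)) :=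
        Real.sqrt_pos.2 (mul_pos hu hv)
      have hsq : Real.sqrt ((G.degree u : ℝ) * (G.degree v : ℝ)) ^ 2 =
        (G.degree u : ℝ) * (G.degree v : ℝ) := Real.sq_sqrt (mul_pos hu hv).le
      set s := Real.sqrt ((G.degree u : ℝ) * (G.degree v : ℝ)) with hsdef
      rw [div_add_div _ _ (by positivity) (by positivity), div_le_div_iff₀ hs (by positivity)]
      have hx := hf u
      have hy := hf v
      -- 4 du dv ≤ (fu * 2 dv + 2 du * fv) * s
      have h4 : 2 * s ≤ f u * G.degree v + G.degree u * f v := by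
        refine le_of_sq_le_sq ?_ (by positivity)
        have h5 : 4 * ((G.degree u : ℝ) * G.degree v) * 1 ≤
            4 * ((G.degree u : ℝ) * G.degree v) * (f u * f v) :=
          mul_le_mul_of_nonneg_left hfuv (by positivity)
        nlinarith [sq_nonneg (f u * G.degree v - G.degree u * f v)]
      nlinarith [mul_le_mul_of_nonneg_right h4 hs.le]
  have h2 : randic G = ∑ e ∈ G.edgeFinset, Sym2.lift ⟨fun u v =>
      1 / Real.sqrt ((G.degree u : ℝ) * (G.degree v : ℝ)), fun u v => by simp only [mul_comm]⟩ e := by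
    unfold randic
    congr!
  rw [h2]
  refine (Finset.sum_le_sum key).trans (le_of_eq ?_)
  rw [sum_edges G (fun v => f v / (2 * G.degree v)), Finset.sum_div]
  refine Finset.sum_congr rfl fun v _ => ?_
  have := hd' v
  field_simp

theorem degree_pos {n : ℕ} (hn : 2 ≤ n) (G : SimpleGraph (Fin n)) (hG : G.Connected) (v : Fin n) :
    0 < (G.neighborSet v).ncard := by
  have : Nontrivial (Fin n) := Fin.nontrivial_iff_two_le.2 hn
  obtain ⟨w, hw⟩ := exists_ne v
  obtain ⟨x, hx⟩ := hG.preconnected.exists_adj_of_nontrivial v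
  exact (Set.ncard_pos).2 ⟨x, hx⟩

theorem upper {n : ℕ} (hn : 3 ≤ n) (G : SimpleGraph (Fin n)) (hG : G.Connected) :
    ∃ b, 1 ≤ b ∧ b ≤ n - 1 ∧ randic G + G.indepNum ≤ val n b := by
  classical
  have hdeg := degree_pos (by omega) G hG
  obtain ⟨S, hS⟩ := G.exists_isNIndepSet_indepNum
  set a := G.indepNum with ha
  have hind : G.IsIndepSet S := hS.isIndepSet
  have hcard : S.card = a := hS.card_eq
  have hane : a ≤ n - 1 := by
    by_contra hcon
    have h1 : S.card ≤ n := by simpa using S.card_le_univ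
    have h2 : S = Finset.univ := by
      rw [← Finset.card_eq_iff_eq_univ, Fintype.card_fin]
      omega
    have hv := hdeg ⟨0, by omega⟩
    obtain ⟨w, hw⟩ := (Set.ncard_pos).1 hv
    have h3 : G.Adj ⟨0, by omega⟩ w := hw
    exact hind (by simp [h2]) (by simp [h2]) h3.ne h3
  by_cases hcase : n ≤ 2 * a
  · have ha1 : 1 ≤ a := by omega
    refine ⟨a, ha1, hane, ?_⟩
    have har : (0 : ℝ) < a := by exact_mod_cast ha1
    have hbr : (0 : ℝ) < (n : ℝ) - a := by
      have : a < n := by omega
      have : (a : ℝ) < n := by exact_mod_cast this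
      linarith
    have hba : (n : ℝ) - a ≤ a := by
      have : (n : ℝ) ≤ 2 * a := by exact_mod_cast hcase
      linarith
    set l := Real.sqrt (((n : ℝ) - a) / a) with hl
    have hlpos : 0 < l := Real.sqrt_pos.2 (div_pos hbr har)
    have hlsq : l ^ 2 = ((n : ℝ) - a) / a := Real.sq_sqrt (div_pos hbr har).le
    have hl1 : l ≤ 1 := by
      rw [hl]
      exact Real.sqrt_le_iff.2 ⟨zero_le_one, by rw [one_pow]; exact (div_le_one har).2 hba⟩
    have h := randic_le G (fun v => if v ∈ S then l else 1 / l)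
      (fun v => by split_ifs <;> positivity) hdeg (by
        intro u v huv
        by_cases hu : u ∈ S <;> by_cases hv : v ∈ S
        · exact absurd huv (hind hu hv huv.ne)
        · simp only [hu, hv, if_true, if_false]
          rw [mul_one_div_cancel hlpos.ne']
        · simp only [hu, hv, if_true, if_false]
          rw [one_div_mul_cancel hlpos.ne']
        · simp only [hu, hv, if_false]
          have : 1 ≤ 1 / l := by rw [le_div_iff₀ hlpos]; linarith
          nlinarith)
    have hsum : (∑ v : Fin n, if v ∈ S then l else 1 / l) = a * l + (n - a) * (1 / l) := by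
      rw [Finset.sum_ite, Finset.sum_const, Finset.sum_const, nsmul_eq_mul, nsmul_eq_mul]
      have h1 : (Finset.univ.filter (fun v => v ∈ S)) = S := by ext; simp
      have h2 : (Finset.univ.filter (fun v => v ∉ S)).card = n - a := by
        have : (Finset.univ.filter (fun v => v ∉ S)) = Sᶜ := by ext; simp
        rw [this, Finset.card_compl, Fintype.card_fin, hcard]
      rw [h1, h2, hcard, Nat.cast_sub (by omega)]
    rw [hsum] at h
    have hval : ((a : ℝ) * l + (n - a) * (1 / l)) / 2 = Real.sqrt ((a : ℝ) * ((n : ℝ) - a)) := by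
      have h1 : ((n : ℝ) - a) = a * l ^ 2 := by rw [hlsq]; field_simp
      have h2 : Real.sqrt ((a : ℝ) * ((n : ℝ) - a)) = a * l := by
        rw [h1]
        have : (a : ℝ) * (a * l ^ 2) = (a * l) ^ 2 := by ring
        rw [this, Real.sqrt_sq (by positivity)]
      rw [h2]
      have h3 : ((n : ℝ) - a) * (1 / l) = a * l := by
        rw [h1]
        field_simp
      rw [h3]
      ring
    rw [hval] at h
    unfold val
    linarith
  · refine ⟨(n + 1) / 2, by omega, by omega, ?_⟩
    have h := randic_le G (fun _ => 1) (fun _ => zero_le_one) hdeg (fun _ _ _ => by norm_num)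
    rw [Finset.sum_const, Finset.card_univ, Fintype.card_fin, nsmul_eq_mul, mul_one] at h
    have ha2 : (a : ℝ) ≤ (n : ℝ) / 2 := by
      have : 2 * a ≤ n := by omega
      have : (2 : ℝ) * a ≤ n := by exact_mod_cast this
      linarith
    have hb : ((n : ℝ) - ((n + 1) / 2 : ℕ)) ≤ (((n + 1) / 2 : ℕ) : ℝ) := by
      have : n ≤ 2 * ((n + 1) / 2) := by omega
      have : (n : ℝ) ≤ 2 * (((n + 1) / 2 : ℕ) : ℝ) := by exact_mod_cast this
      linarith
    have hb0 : 0 ≤ ((n : ℝ) - ((n + 1) / 2 : ℕ)) := by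
      have : (n + 1) / 2 ≤ n := by omega
      have : (((n + 1) / 2 : ℕ) : ℝ) ≤ n := by exact_mod_cast this
      linarith
    have h2 : ((n : ℝ) - ((n + 1) / 2 : ℕ)) ≤
        Real.sqrt ((((n + 1) / 2 : ℕ) : ℝ) * ((n : ℝ) - ((n + 1) / 2 : ℕ))) := by
      refine Real.le_sqrt_of_sq_le ?_
      nlinarith
    unfold val
    linarith

/-- The complete bipartite graph with parts `{v < a}` and `{v ≥ a}` on `Fin n`. -/
def K (n a : ℕ) : SimpleGraph (Fin n) where
  Adj u v := (u.val < a ∧ a ≤ v.val) ∨ (a ≤ u.val ∧ v.val < a)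
  symm := ⟨fun u v h => by
    rcases h with h | h
    · exact Or.inr ⟨h.2, h.1⟩
    · exact Or.inl ⟨h.2, h.1⟩⟩
  loopless := ⟨fun u h => by omega⟩

theorem K_connected {n a : ℕ} (ha : 1 ≤ a) (han : a ≤ n - 1) (hn : 3 ≤ n) :
    (K n a).Connected := by
  have h0 : ∀ v : Fin n, (K n a).Reachable ⟨0, by omega⟩ v := by
    intro v
    by_cases hv : a ≤ v.val
    · exact SimpleGraph.Adj.reachable (Or.inl ⟨(show 0 < a by omega), hv⟩)
    · have h1 : (K n a).Adj ⟨0, by omega⟩ ⟨n - 1, by omega⟩ := Or.inl ⟨(show 0 < a by omega), han⟩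
      have h2 : (K n a).Adj ⟨n - 1, by omega⟩ v := Or.inr ⟨han, by omega⟩
      exact h1.reachable.trans h2.reachable
  have : Nonempty (Fin n) := ⟨⟨0, by omega⟩⟩
  exact ⟨fun u v => (h0 u).symm.trans (h0 v)⟩

theorem card_lt {n a : ℕ} (h : a ≤ n) :
    (Finset.univ.filter (fun v : Fin n => v.val < a)).card = a := by
  rw [← Fintype.card_subtype]
  have : Fintype.card {v : Fin n // v.val < a} = Fintype.card (Fin a) :=
    Fintype.card_congr ⟨fun v => ⟨v.1.val, v.2⟩, fun v => ⟨⟨v.val, by omega⟩, v.2⟩,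
      fun v => rfl, fun v => rfl⟩
  rw [this, Fintype.card_fin]

theorem card_ge {n a : ℕ} (h : a ≤ n) :
    (Finset.univ.filter (fun v : Fin n => a ≤ v.val)).card = n - a := by
  have h1 : (Finset.univ.filter (fun v : Fin n => a ≤ v.val)) =
      (Finset.univ.filter (fun v : Fin n => v.val < a))ᶜ := by
    ext v
    simp
  rw [h1, Finset.card_compl, Fintype.card_fin, card_lt h]

theorem K_indep {n a : ℕ} (han : a ≤ n) : a ≤ (K n a).indepNum := by
  classical
  have h : (K n a).IsIndepSet ((Finset.univ.filter (fun v : Fin n => v.val < a) : Finset (Fin n)) :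
      Set (Fin n)) := by
    intro u hu v hv _ huv
    simp only [Finset.coe_filter, Finset.mem_univ, true_and, Set.mem_ofPred_eq] at hu hv
    rcases huv with h | h <;> omega
  have := h.card_le_indepNum
  rwa [card_lt han] at this

theorem K_randic {n a : ℕ} (ha : 1 ≤ a) (han : a ≤ n - 1) (hn : 3 ≤ n) :
    randic (K n a) = Real.sqrt ((a : ℝ) * ((n : ℝ) - a)) := by
  classical
  have har : (0 : ℝ) < a := by exact_mod_cast ha
  have hbr : (0 : ℝ) < (n : ℝ) - a := by
    have : a < n := by omega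
    have : (a : ℝ) < n := by exact_mod_cast this
    linarith
  have hd1 : ∀ v : Fin n, v.val < a → ((K n a).degree v : ℝ) = (n : ℝ) - a := by
    intro v hv
    rw [← SimpleGraph.card_neighborFinset_eq_degree]
    have : (K n a).neighborFinset v = Finset.univ.filter (fun v : Fin n => a ≤ v.val) := by
      ext w
      rw [SimpleGraph.mem_neighborFinset]
      simp only [K, Finset.mem_filter, Finset.mem_univ, true_and]
      omega
    rw [this, card_ge (by omega), Nat.cast_sub (by omega)]
  have hd2 : ∀ v : Fin n, a ≤ v.val → ((K n a).degree v : ℝ) = a := by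
    intro v hv
    rw [← SimpleGraph.card_neighborFinset_eq_degree]
    have : (K n a).neighborFinset v = Finset.univ.filter (fun v : Fin n => v.val < a) := by
      ext w
      rw [SimpleGraph.mem_neighborFinset]
      simp only [K, Finset.mem_filter, Finset.mem_univ, true_and]
      omega
    rw [this, card_lt (by omega)]
  have hs : 0 < Real.sqrt ((a : ℝ) * ((n : ℝ) - a)) := Real.sqrt_pos.2 (mul_pos har hbr)
  have hsq : Real.sqrt ((a : ℝ) * ((n : ℝ) - a)) ^ 2 = (a : ℝ) * ((n : ℝ) - a) :=
    Real.sq_sqrt (mul_pos har hbr).le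
  set s := Real.sqrt ((a : ℝ) * ((n : ℝ) - a)) with hsdef
  have h2 : randic (K n a) = ∑ e ∈ (K n a).edgeFinset, Sym2.lift ⟨fun u v =>
      1 / Real.sqrt (((K n a).degree u : ℝ) * ((K n a).degree v : ℝ)),
      fun u v => by simp only [mul_comm]⟩ e := by
    unfold randic
    congr!
  have key : ∀ e ∈ (K n a).edgeFinset, Sym2.lift ⟨fun u v =>
      1 / Real.sqrt (((K n a).degree u : ℝ) * ((K n a).degree v : ℝ)),
      fun u v => by simp only [mul_comm]⟩ e =
      Sym2.lift ⟨fun u v => 1 / (2 * s) + 1 / (2 * s), fun _ _ => add_comm _ _⟩ e := by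
    intro e he
    induction e with
    | _ u v =>
      rw [SimpleGraph.mem_edgeFinset, SimpleGraph.mem_edgeSet] at he
      simp only [Sym2.lift_mk]
      have h3 : ((K n a).degree u : ℝ) * ((K n a).degree v : ℝ) = a * (n - a) := by
        rcases he with he | he
        · rw [hd1 u he.1, hd2 v he.2]; ring
        · rw [hd2 u he.1, hd1 v he.2]
      rw [h3, ← hsdef]
      field_simp
      norm_num
  rw [h2, Finset.sum_congr rfl key, sum_edges (K n a) (fun _ => 1 / (2 * s))]
  rw [← Finset.sum_filter_add_sum_filter_not Finset.univ (fun v : Fin n => v.val < a)]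
  have e1 : ∑ v ∈ Finset.univ.filter (fun v : Fin n => v.val < a),
      ((K n a).degree v : ℝ) * (1 / (2 * s)) = a * ((n - a) * (1 / (2 * s))) := by
    rw [Finset.sum_congr rfl (g := fun _ => ((n : ℝ) - a) * (1 / (2 * s)))
      (fun v hv => by rw [hd1 v (by simpa using hv)]), Finset.sum_const, card_lt (by omega),
      nsmul_eq_mul]
  have e2 : ∑ v ∈ Finset.univ.filter (fun v : Fin n => ¬ v.val < a),
      ((K n a).degree v : ℝ) * (1 / (2 * s)) = (n - a) * (a * (1 / (2 * s))) := by
    rw [Finset.sum_congr rfl (g := fun _ => (a : ℝ) * (1 / (2 * s)))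
      (fun v hv => by rw [hd2 v (by simpa using hv)]), Finset.sum_const]
    simp only [not_lt]
    rw [card_ge (by omega), nsmul_eq_mul, Nat.cast_sub (by omega)]
  rw [e1, e2]
  field_simp
  nlinarith

theorem val_le {n b : ℕ} (hn : 3 ≤ n) (hn' : n ≤ 10) (hb : 1 ≤ b) (hb' : b ≤ n - 1) :
    val n b ≤ (n : ℝ) - 1 + Real.sqrt ((n : ℝ) - 1) := by
  unfold val
  obtain ⟨c, rfl⟩ : ∃ c, n = b + c := ⟨n - b, by omega⟩
  have hc : 1 ≤ c := by omega
  push_cast
  have hbr : (1 : ℝ) ≤ b := by exact_mod_cast hb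
  have hcr : (1 : ℝ) ≤ c := by exact_mod_cast hc
  have hs0 : 0 ≤ Real.sqrt ((b : ℝ) + c - 1) := Real.sqrt_nonneg _
  have hs : Real.sqrt ((b : ℝ) + c - 1) ^ 2 = (b : ℝ) + c - 1 := Real.sq_sqrt (by linarith)
  set s := Real.sqrt ((b : ℝ) + c - 1) with hsdef
  have hsn : (b : ℝ) + c ≤ 10 := by exact_mod_cast hn'
  have h1 : ((b : ℝ) - c) * (c - 1) ≤ 2 * (c - 1) * s := by
    rcases Nat.lt_or_ge c 2 with hc2 | hc2
    · have : c = 1 := by omega
      subst this
      simp
    · have hcr2 : (2 : ℝ) ≤ c := by exact_mod_cast hc2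
      have h2 : (b : ℝ) - c ≤ 2 * s := by
        by_cases h3 : (b : ℝ) - c ≤ 0
        · linarith
        · refine le_of_sq_le_sq ?_ (by positivity)
          nlinarith
      nlinarith
  have h3 : Real.sqrt ((b : ℝ) * ((b : ℝ) + c - b)) ≤ (c : ℝ) - 1 + s := by
    refine Real.sqrt_le_iff.2 ⟨by linarith, ?_⟩
    nlinarith
  linarith

theorem val_two {n : ℕ} (hn : 11 ≤ n) :
    (n : ℝ) - 1 + Real.sqrt ((n : ℝ) - 1) < val n (n - 2) := by
  unfold val
  rw [Nat.cast_sub (by omega)]
  push_cast
  have hnr : (11 : ℝ) ≤ n := by exact_mod_cast hn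
  have hs0 : 0 ≤ Real.sqrt ((n : ℝ) - 1) := Real.sqrt_nonneg _
  have hs : Real.sqrt ((n : ℝ) - 1) ^ 2 = (n : ℝ) - 1 := Real.sq_sqrt (by linarith)
  set s := Real.sqrt ((n : ℝ) - 1) with hsdef
  have h2 : 2 * s < n - 4 := by
    refine lt_of_pow_lt_pow_left₀ 2 (by linarith) ?_
    nlinarith
  have h3 : 1 + s < Real.sqrt (((n : ℝ) - 2) * ((n : ℝ) - (n - 2))) := by
    refine Real.lt_sqrt_of_sq_lt ?_
    nlinarith
  linarith

/-- For every `n ≥ 3` the maximum of `R(G) + α(G)` over connected graphs on `n` vertices is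
`max_{1 ≤ a ≤ n-1} (a + √(a (n - a)))`, and the inequality `R(G) + α(G) ≤ n - 1 + √(n - 1)`
holds for all connected graphs on `n` vertices if and only if `n ≤ 10`. -/
theorem result (n : ℕ) (hn : 3 ≤ n) :
    (∃ a : ℕ, 1 ≤ a ∧ a ≤ n - 1 ∧ (∀ b : ℕ, 1 ≤ b → b ≤ n - 1 → val n b ≤ val n a) ∧
      IsGreatest {x : ℝ | ∃ G : SimpleGraph (Fin n), G.Connected ∧
        x = randic G + (G.indepNum : ℝ)} (val n a)) ∧
    ((∀ G : SimpleGraph (Fin n), G.Connected →
      randic G + (G.indepNum : ℝ) ≤ (n : ℝ) - 1 + Real.sqrt ((n : ℝ) - 1)) ↔ n ≤ 10) := by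
  classical
  have hK : ∀ a, 1 ≤ a → a ≤ n - 1 → val n a ≤ randic (K n a) + ((K n a).indepNum : ℝ) := by
    intro a ha han
    rw [K_randic ha han hn]
    unfold val
    have : a ≤ (K n a).indepNum := K_indep (by omega)
    have : (a : ℝ) ≤ ((K n a).indepNum : ℝ) := by exact_mod_cast this
    linarith
  constructor
  · obtain ⟨a, ha, hmax⟩ := Finset.exists_max_image (Finset.Icc 1 (n - 1)) (val n)
      ⟨1, Finset.mem_Icc.2 ⟨le_rfl, by omega⟩⟩
    rw [Finset.mem_Icc] at ha
    refine ⟨a, ha.1, ha.2, fun b h1 h2 => hmax b (Finset.mem_Icc.2 ⟨h1, h2⟩), ?_, ?_⟩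
    · refine ⟨K n a, K_connected ha.1 ha.2 hn, le_antisymm (hK a ha.1 ha.2) ?_⟩
      obtain ⟨b, hb1, hb2, hb⟩ := upper hn (K n a) (K_connected ha.1 ha.2 hn)
      exact hb.trans (hmax b (Finset.mem_Icc.2 ⟨hb1, hb2⟩))
    · rintro x ⟨G, hG, rfl⟩
      obtain ⟨b, hb1, hb2, hb⟩ := upper hn G hG
      exact hb.trans (hmax b (Finset.mem_Icc.2 ⟨hb1, hb2⟩))
  · constructor
    · intro h
      by_contra hcon
      have h1 := h (K n (n - 2)) (K_connected (by omega) (by omega) hn)
      have h2 := hK (n - 2) (by omega) (by omega)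
      have h3 := val_two (n := n) (by omega)
      linarith
    · intro h G hG
      obtain ⟨b, hb1, hb2, hb⟩ := upper hn G hG
      exact hb.trans (val_le hn h hb1 hb2)

end Pool.Agent.Results.MP_e31007_co.RandicAlpha
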